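import Pool.Agent.Q106.FillGap

/-!
# Super-Euclidean filling functions with a polynomial gap (MP_b8ac35_gt, Q1)

Let `G` be a non-abelian, connected, simply connected nilpotent Lie group of dimension `n`, for
instance a non-abelian stratified group. If `a 1, …, a (n - 1)` are real numbers `≥ 1` with product
less than `n + 1`, then for some `1 ≤ k ≤ n - 1` the filling function of `G` in dimension `k` is
not `≼ r ^ a k`. The Euclidean exponents `a k = (k + 1) / k` have product `n < n + 1`: hence some
filling function is super-Euclidean, and even `⋠ r ^ ((k + 1) / k + 1 / n ^ 2)`.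

The group is given in triangular polynomial coordinates (`NilLaw n`, see
`Pool.Agent.TH630.Fill.Defs`): a group law `(x y)_i = x_i + y_i + P_i (x, y)` on real `n`-space,
where the polynomial `P_i` depends only on the coordinates of index less than `i`. A stratified
group has such coordinates (exponential coordinates in a basis adapted to the grading, ordered by
weight), and so has, by a theorem of Malcev, every connected, simply connected nilpotent Lie group.
The matrix `B` is the value at the identity of an arbitrary left-invariant Riemannian metric, and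
`G.FV B k` is the filling function in dimension `k`.
-/

set_option autoImplicit false

namespace Pool.Agent.Results.MP_b8ac35_gt.PolynomialGap

open Pool.Agent.TH630

/-- `FV^{k+1} ≼ r ^ a`, where `f ≼ g` means that `f r ≤ C g (C r + C) + C r + C` for all `r ≥ 0`,
for some `C > 0`. -/
def FillingAtMost {n : ℕ} (G : NilLaw n) (B : Matrix (Fin n) (Fin n) ℝ) (k : ℕ) (a : ℝ) : Prop :=
  ∃ C : ℝ, 0 < C ∧ ∀ r : ℝ, 0 ≤ r →
    G.FV B k r ≤ ENNReal.ofReal (C * (C * r + C) ^ a + C * r + C)

/-- **Q1 holds, with a polynomial gap.** Let `G` be a non-abelian, connected, simply connected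
nilpotent Lie group of dimension `n` with an arbitrary left-invariant Riemannian metric, and let
`a 1, …, a (n - 1)` be real numbers `≥ 1` with product less than `n + 1`. Then for some `k` with
`1 ≤ k ≤ n - 1` the filling function of `G` in dimension `k` is not `≼ r ^ a k`. -/
theorem result {n : ℕ} (G : NilLaw n) (hG : ∃ x y, G.mul x y ≠ G.mul y x)
    (B : Matrix (Fin n) (Fin n) ℝ) (hB : B.PosDef) (a : ℕ → ℝ)
    (ha : ∀ k, 1 ≤ k → k ≤ n - 1 → 1 ≤ a k)
    (hprod : ∏ k ∈ Finset.Icc 1 (n - 1), a k < n + 1) :
    ∃ k : ℕ, 1 ≤ k ∧ k ≤ n - 1 ∧ ¬ FillingAtMost G B k (a k) := by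
  obtain ⟨k, h1, h2, h3⟩ := Pool.Agent.Q106.exists_not_fillLE G hG B hB a
    (fun k hk hk' => ha k hk (by omega)) hprod
  exact ⟨k, h1, by omega, h3⟩

/-- The Euclidean exponents have product `n`: the theorem contains the question. -/
theorem prod_euclidean (n : ℕ) (hn : 1 ≤ n) :
    ∏ k ∈ Finset.Icc 1 (n - 1), (((k : ℝ) + 1) / k) = n := by
  obtain ⟨m, rfl⟩ : ∃ m, n = m + 1 := ⟨n - 1, by omega⟩
  rw [Nat.add_sub_cancel]
  induction m with
  | zero => simp
  | succ m ih =>
    rw [Finset.prod_Icc_succ_top (by omega), ih (by omega)]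
    have : ((m : ℝ) + 1) ≠ 0 := by positivity
    push_cast
    field_simp

/-- The statement of Q1: some filling function is super-Euclidean. -/
theorem super_euclidean {n : ℕ} (G : NilLaw n) (hG : ∃ x y, G.mul x y ≠ G.mul y x)
    (B : Matrix (Fin n) (Fin n) ℝ) (hB : B.PosDef) :
    ∃ k : ℕ, 1 ≤ k ∧ k ≤ n - 1 ∧ ¬ FillingAtMost G B k (((k : ℝ) + 1) / k) := by
  have hn : 1 ≤ n := by
    rcases n with _ | n
    · obtain ⟨x, y, hxy⟩ := hG
      exact absurd (Subsingleton.elim _ _) hxy
    · omega
  refine result G hG B hB (fun k => ((k : ℝ) + 1) / k) (fun k hk _ => ?_) ?_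
  · have h0 : (0 : ℝ) < k := by exact_mod_cast hk
    rw [le_div_iff₀ h0]
    linarith
  · rw [prod_euclidean n hn]
    linarith

end Pool.Agent.Results.MP_b8ac35_gt.PolynomialGap
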